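import Pool.Agent.H20.Cyc4

namespace Pool.Agent.Results.MP_6d1569_co.LargeCycles

open Finset Pool.Agent.H20.Lag

/-- The Lagrangian of a hypergraph on `Fin n`. -/
noncomputable def lag {n : ℕ} (G : Finset (Finset (Fin n))) : ℝ :=
  sSup {y : ℝ | ∃ x : Fin n → ℝ, (∀ i, 0 ≤ x i) ∧ ∑ i, x i = 1 ∧ y = ∑ e ∈ G, ∏ i ∈ e, x i}

/-- `G` contains the linear cycle of length `t`. -/
def HasCycle (t : ℕ) {n : ℕ} (G : Finset (Finset (Fin n))) : Prop :=
  ∃ u w : ZMod t → Fin n, Function.Injective u ∧ Function.Injective w ∧ (∀ i j, u i ≠ w j) ∧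
    ∀ i, ({u i, w i, u (i + 1)} : Finset (Fin n)) ∈ G

theorem result (t : ℕ) (ht : 2000000 ≤ t) (n : ℕ) (G : Finset (Finset (Fin n)))
    (hG : ∀ e ∈ G, e.card = 3) (hfree : ¬ HasCycle t G) :
    lag G ≤ lag (powersetCard 3 (univ : Finset (Fin (2 * t - 1)))) ∧
    (lag G = lag (powersetCard 3 (univ : Finset (Fin (2 * t - 1)))) →
      ∃ A : Finset (Fin n), A.card = 2 * t - 1 ∧ powersetCard 3 A ⊆ G) := by
  haveI : NeZero t := ⟨by omega⟩
  have ht' : (2000000 : ℝ) ≤ t := by exact_mod_cast ht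
  obtain ⟨a, ha'⟩ : ∃ a : ℝ, a = 1 / (2 * t - 1) := ⟨_, rfl⟩
  have hp : (0 : ℝ) < 2 * t - 1 := by linarith
  have ha : a * (2 * t - 1) = 1 := by rw [ha']; field_simp
  have ha0 : 0 < a := by rw [ha']; positivity
  have ha1 : a ≤ 1 / 1000000 := by nlinarith
  have hg : 0 < (1 - 3 * a + 2 * a ^ 2) / 6 := by nlinarith [sq_nonneg a]
  have low : (1 - 3 * a + 2 * a ^ 2) / 6 ≤
      lag (powersetCard 3 (univ : Finset (Fin (2 * t - 1)))) := by
    have hc : ((2 * t - 1 : ℕ) : ℝ) = 2 * t - 1 := by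
      rw [Nat.cast_sub (by omega)]; push_cast; ring
    have e1 : ∑ _v : Fin (2 * t - 1), a = 1 := by
      rw [sum_const, card_fin, nsmul_eq_mul, hc, mul_comm, ha]
    refine le_csSup ⟨1, ?_⟩ ⟨fun _ => a, fun _ => ha0.le, e1, ?_⟩
    · rintro _ ⟨z, h1, h2, rfl⟩
      have := EE_le h1 3 univ
      have h3 := pw_nonneg (F := powersetCard 3 univ) h1
      rw [h2] at this
      norm_num [EE, Nat.factorial] at this
      change pw _ z ≤ 1
      linarith
    · have := EE_three e1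
      rw [sum_const, card_fin, nsmul_eq_mul, hc] at this
      have e2 : (2 * (t : ℝ) - 1) * (3 * a ^ 2 - 2 * a ^ 3) = 3 * a - 2 * a ^ 2 := by
        calc _ = a * (2 * t - 1) * (3 * a - 2 * a ^ 2) := by ring
          _ = _ := by rw [ha, one_mul]
      norm_num [EE, Nat.factorial] at this
      change _ = pw _ fun _ => a
      linarith
  have up : ∀ y : Fin n → ℝ, (∀ v, 0 ≤ y v) → ∑ v, y v = 1 →
      pw G y ≤ (1 - 3 * a + 2 * a ^ 2) / 6 := fun y h1 h2 => by
    by_contra h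
    have := (cyc_main hG ht hfree ha h1 h2 (by linarith [not_le.1 h])).1
    exact h (by linarith)
  refine ⟨le_trans (Real.sSup_le ?_ hg.le) low, fun h => ?_⟩
  · rintro _ ⟨y, h1, h2, rfl⟩
    exact up y h1 h2
  · rcases Set.eq_empty_or_nonempty (stdSimplex ℝ (Fin n)) with h0 | h0
    · have : lag G ≤ 0 := Real.sSup_le (by
        rintro _ ⟨y, h1, h2, rfl⟩
        exact absurd (show y ∈ stdSimplex ℝ (Fin n) from ⟨h1, h2⟩) (by simp [h0])) le_rfl
      linarith
    obtain ⟨x, ⟨hx, hx1⟩, hmax⟩ := (isCompact_stdSimplex ℝ (Fin n)).exists_isMaxOn h0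
      (f := pw G) (Continuous.continuousOn (by unfold pw; fun_prop))
    have : lag G ≤ pw G x := Real.sSup_le (by
      rintro _ ⟨y, h1, h2, rfl⟩
      exact hmax (show y ∈ stdSimplex ℝ (Fin n) from ⟨h1, h2⟩)) (pw_nonneg hx)
    exact (cyc_main hG ht hfree ha hx hx1 (by linarith)).2

end Pool.Agent.Results.MP_6d1569_co.LargeCycles
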